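import Mathlib
import Pool.Agent.H83.LS.Basic
import Pool.Agent.H83.LS.Targets1

/-!
Local smoothing, tools: linear changes of variables in the plane, the cutoffs.
-/

set_option autoImplicit false

namespace Pool.Agent.H2.LS

open MeasureTheory Set Pool.Agent.H83.LS
open scoped ENNReal NNReal

/-- the linear map with matrix `(a b; c d)` as a linear equivalence of the plane -/
theorem map_lin (a b c d : ℝ) (h : a * d - b * c ≠ 0) :
    MeasurableEmbedding (fun x : ℝ × ℝ => (a * x.1 + b * x.2, c * x.1 + d * x.2)) ∧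
    Measure.map (fun x : ℝ × ℝ => (a * x.1 + b * x.2, c * x.1 + d * x.2)) volume =
      ENNReal.ofReal |(a * d - b * c)⁻¹| • (volume : Measure (ℝ × ℝ)) := by
  set f : ℝ × ℝ →ₗ[ℝ] ℝ × ℝ :=
    Matrix.toLin (Module.Basis.finTwoProd ℝ) (Module.Basis.finTwoProd ℝ) !![a, b; c, d] with hf
  have hdet : LinearMap.det f = a * d - b * c := by
    rw [hf, LinearMap.det_toLin, Matrix.det_fin_two_of]
  have hfun : (fun x : ℝ × ℝ => (a * x.1 + b * x.2, c * x.1 + d * x.2)) = f := by
    funext x
    rw [hf, Matrix.toLin_finTwoProd_apply]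
  have hne : LinearMap.det f ≠ 0 := by rw [hdet]; exact h
  refine ⟨?_, ?_⟩
  · rw [hfun]
    exact ((f.equivOfDetNeZero hne).toContinuousLinearEquiv.toHomeomorph).measurableEmbedding
  · rw [hfun, Measure.map_linearMap_addHaar_eq_smul_addHaar volume hne, hdet]

theorem integral_lin (a b c d : ℝ) (h : a * d - b * c ≠ 0) (F : ℝ × ℝ → ℂ) :
    ∫ x, F x = (|a * d - b * c| : ℝ) • ∫ x : ℝ × ℝ, F (a * x.1 + b * x.2, c * x.1 + d * x.2) := by
  obtain ⟨h1, h2⟩ := map_lin a b c d h
  have h3 := h1.integral_map (μ := volume) F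
  rw [h2, integral_smul_measure] at h3
  rw [← h3, smul_smul, ENNReal.toReal_ofReal (abs_nonneg _), abs_inv,
    mul_inv_cancel₀ (abs_ne_zero.2 h), one_smul]

theorem lintegral_lin (a b c d : ℝ) (h : a * d - b * c ≠ 0) (F : ℝ × ℝ → ℝ≥0∞) :
    ∫⁻ x, F x = ENNReal.ofReal |a * d - b * c| *
      ∫⁻ x : ℝ × ℝ, F (a * x.1 + b * x.2, c * x.1 + d * x.2) := by
  obtain ⟨h1, h2⟩ := map_lin a b c d h
  have h3 := h1.lintegral_map (μ := volume) F
  rw [h2, lintegral_smul_measure] at h3
  rw [← h3, smul_eq_mul, ← mul_assoc, ← ENNReal.ofReal_mul (abs_nonneg _), abs_inv,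
    mul_inv_cancel₀ (abs_ne_zero.2 h), ENNReal.ofReal_one, one_mul]

theorem psi_zero {x : ℝ} (h : 1 ≤ |x|) : psi x = 0 := by
  unfold psi
  rcases le_abs.1 h with h1 | h1
  · rw [Real.smoothTransition.one_of_one_le (by linarith),
      Real.smoothTransition.one_of_one_le h1, sub_self]
  · rw [Real.smoothTransition.zero_of_nonpos (by linarith),
      Real.smoothTransition.zero_of_nonpos (by linarith), sub_self]

theorem psi2_eq (x : ℝ) : psi2 x = Real.smoothTransition (x + 2) - Real.smoothTransition (x - 1) := by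
  unfold psi2 psi
  have h1 : x - 1 + 1 = x := by ring
  have h2 : x + 1 + 1 = x + 2 := by ring
  rw [h1, h2]
  ring

theorem psi2_zero {x : ℝ} (h : 2 ≤ |x|) : psi2 x = 0 := by
  rw [psi2_eq]
  rcases le_abs.1 h with h1 | h1
  · rw [Real.smoothTransition.one_of_one_le (by linarith),
      Real.smoothTransition.one_of_one_le (by linarith), sub_self]
  · rw [Real.smoothTransition.zero_of_nonpos (by linarith),
      Real.smoothTransition.zero_of_nonpos (by linarith), sub_self]

theorem XX_zero_left {x : ℝ} (h : x ≤ 1 / 8) : XX x = 0 := by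
  unfold XX
  rw [Real.smoothTransition.zero_of_nonpos (by linarith), zero_mul]

theorem XX_zero_right {x : ℝ} (h : 4 ≤ x) : XX x = 0 := by
  unfold XX
  rw [Real.smoothTransition.zero_of_nonpos (x := (4 - x) / 2) (by linarith), mul_zero]

theorem contDiff_psi : ContDiff ℝ (⊤ : ℕ∞) psi := by
  unfold psi
  exact (Real.smoothTransition.contDiff.comp (contDiff_id.add contDiff_const)).sub
    Real.smoothTransition.contDiff

theorem contDiff_psi2 : ContDiff ℝ (⊤ : ℕ∞) psi2 := by
  unfold psi2
  exact ((contDiff_psi.comp (contDiff_id.sub contDiff_const)).add contDiff_psi).add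
    (contDiff_psi.comp (contDiff_id.add contDiff_const))

theorem contDiff_XX : ContDiff ℝ (⊤ : ℕ∞) XX := by
  unfold XX
  exact (Real.smoothTransition.contDiff.comp ((contDiff_const.mul contDiff_id).sub contDiff_const)).mul
    (Real.smoothTransition.contDiff.comp ((contDiff_const.sub contDiff_id).div_const _))

/-- smoothness from vanishing off a closed set -/
theorem contDiffOn_of_vanish {E F : Type*} [NormedAddCommGroup E] [NormedSpace ℝ E]
    [NormedAddCommGroup F] [NormedSpace ℝ F] {f : E → F} {s S : Set E} (hs : IsOpen s)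
    (hS : IsClosed S) (h0 : ∀ x ∈ s, x ∉ S → f x = 0)
    (h1 : ∀ x ∈ s, x ∈ S → ContDiffAt ℝ (⊤ : ℕ∞) f x) : ContDiffOn ℝ (⊤ : ℕ∞) f s := by
  intro x hx
  by_cases hxS : x ∈ S
  · exact (h1 x hx hxS).contDiffWithinAt
  · have h2 : f =ᶠ[nhds x] fun _ => (0 : F) := by
      have : s ∩ Sᶜ ∈ nhds x := (hs.inter hS.isOpen_compl).mem_nhds ⟨hx, hxS⟩
      filter_upwards [this] with y hy
      exact h0 y hy.1 hy.2
    exact (contDiffAt_const.congr_of_eventuallyEq h2).contDiffWithinAt

end Pool.Agent.H2.LS
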