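import Mathlib
import Pool.Agent.H2.LS.Tools

/-!
Local smoothing, module CAPK: kernels of isotropic caps.
-/

set_option autoImplicit false

namespace Pool.Agent.H2.LS.CK

open MeasureTheory Set Pool.Agent.H83.LS Pool.Agent.H2.LS
open scoped ENNReal NNReal

/-- the denominator of the remainder -/
noncomputable def DD (a ε x σ t₁ t₂ : ℝ) : ℝ :=
  Real.sqrt ((x + ε * t₁) ^ 2 + a ^ 2 * (x * σ + ε * t₂) ^ 2) +
    x * Real.sqrt (1 + a ^ 2 * σ ^ 2) + ε * (t₁ + a ^ 2 * σ * t₂) / Real.sqrt (1 + a ^ 2 * σ ^ 2)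

/-- the remainder -/
noncomputable def EE (a ε x σ t₁ t₂ : ℝ) : ℝ :=
  (t₂ - σ * t₁) ^ 2 / ((1 + a ^ 2 * σ ^ 2) * DD a ε x σ t₁ t₂)

theorem one_le_w (a s₀ : ℝ) : 1 ≤ Real.sqrt (1 + a ^ 2 * s₀ ^ 2) := by
  rw [show (1 : ℝ) = Real.sqrt 1 by simp]
  apply Real.sqrt_le_sqrt
  have : 0 ≤ a ^ 2 * s₀ ^ 2 := by positivity
  simpa using this

theorem DD_pos {a ε x σ t₁ t₂ : ℝ} (ha : |a| < 3 / 2) (hε : |ε| < 1 / 60) (hx : 1 / 10 < x)
    (h1 : |t₁| ≤ 2) (h2 : |t₂| ≤ 2) : 0 < x + ε * t₁ ∧ 0 < DD a ε x σ t₁ t₂ := by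
  have e1 : |ε * t₁| ≤ 1 / 60 * 2 := by
    rw [abs_mul]; exact mul_le_mul hε.le h1 (abs_nonneg _) (by norm_num)
  have e1' := abs_le.1 e1
  have hpos : 0 < x + ε * t₁ := by linarith [e1'.1]
  refine ⟨hpos, ?_⟩
  unfold DD
  have hw1 := one_le_w a σ
  have hw2 : Real.sqrt (1 + a ^ 2 * σ ^ 2) ^ 2 = 1 + a ^ 2 * σ ^ 2 :=
    Real.sq_sqrt (by positivity)
  have hS : x + ε * t₁ ≤ Real.sqrt ((x + ε * t₁) ^ 2 + a ^ 2 * (x * σ + ε * t₂) ^ 2) := by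
    apply Real.le_sqrt_of_sq_le
    have : 0 ≤ a ^ 2 * (x * σ + ε * t₂) ^ 2 := by positivity
    linarith
  generalize Real.sqrt (1 + a ^ 2 * σ ^ 2) = w at hw1 hw2
  have hwpos : 0 < w := by linarith
  have haσ : |a| * |σ| ≤ w := by
    apply le_of_sq_le_sq _ hwpos.le |>.trans le_rfl
    rw [hw2, mul_pow, sq_abs, sq_abs]
    linarith
  have h3 : |t₁ + a ^ 2 * σ * t₂| ≤ 5 * w := by
    calc |t₁ + a ^ 2 * σ * t₂| ≤ |t₁| + |a ^ 2 * σ * t₂| := abs_add_le _ _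
      _ = |t₁| + |a| * (|a| * |σ|) * |t₂| := by
          rw [abs_mul, abs_mul, abs_of_nonneg (sq_nonneg a), ← sq_abs a]; ring
      _ ≤ 2 + (3 / 2) * w * 2 := by
          gcongr
      _ ≤ 5 * w := by linarith
  have h4 : |ε * (t₁ + a ^ 2 * σ * t₂) / w| ≤ 1 / 60 * 5 := by
    rw [abs_div, abs_mul, abs_of_pos hwpos, div_le_iff₀ hwpos]
    calc |ε| * |t₁ + a ^ 2 * σ * t₂| ≤ 1 / 60 * (5 * w) :=
          mul_le_mul hε.le h3 (abs_nonneg _) (by norm_num)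
      _ = 1 / 60 * 5 * w := by ring
  have h4' := abs_le.1 h4
  have h5 : x ≤ x * w := by nlinarith
  linarith [h4'.1, e1'.1]

theorem ph_id {a ε x σ t₁ t₂ : ℝ} (hx : 0 < x + ε * t₁) (hD : 0 < DD a ε x σ t₁ t₂) :
    ph a (x + ε * t₁, x * σ + ε * t₂) =
      x * hh a σ + ε * ((hh a σ - σ * dh a σ) * t₁ + dh a σ * t₂) + ε ^ 2 * EE a ε x σ t₁ t₂ := by
  unfold ph hh dh EE
  unfold DD at hD ⊢
  simp only
  have hw1 := one_le_w a σ
  have hw2 : Real.sqrt (1 + a ^ 2 * σ ^ 2) ^ 2 = 1 + a ^ 2 * σ ^ 2 :=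
    Real.sq_sqrt (by positivity)
  have hS2 : Real.sqrt ((x + ε * t₁) ^ 2 + a ^ 2 * (x * σ + ε * t₂) ^ 2) ^ 2 =
    (x + ε * t₁) ^ 2 + a ^ 2 * (x * σ + ε * t₂) ^ 2 := Real.sq_sqrt (by positivity)
  have hS0 := Real.sqrt_nonneg ((x + ε * t₁) ^ 2 + a ^ 2 * (x * σ + ε * t₂) ^ 2)
  by_cases ha : a = 0
  · subst ha
    have h1 : Real.sqrt ((x + ε * t₁) ^ 2 + (0 : ℝ) ^ 2 * (x * σ + ε * t₂) ^ 2) = x + ε * t₁ := by
      rw [show (x + ε * t₁) ^ 2 + (0 : ℝ) ^ 2 * (x * σ + ε * t₂) ^ 2 = (x + ε * t₁) ^ 2 by ring]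
      exact Real.sqrt_sq hx.le
    have h2 : Real.sqrt (1 + (0 : ℝ) ^ 2 * σ ^ 2) = 1 := by
      rw [show (1 : ℝ) + (0 : ℝ) ^ 2 * σ ^ 2 = 1 by ring]
      exact Real.sqrt_one
    rw [h1, h2]
    have e1 : x + ε * t₁ + x * 1 + ε * (t₁ + (0 : ℝ) ^ 2 * σ * t₂) / 1 = 2 * (x + ε * t₁) := by ring
    have e2 : x + ε * t₁ + (x + ε * t₁) = 2 * (x + ε * t₁) := by ring
    rw [e1, e2]
    field_simp
    ring
  · generalize Real.sqrt (1 + a ^ 2 * σ ^ 2) = w at *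
    generalize Real.sqrt ((x + ε * t₁) ^ 2 + a ^ 2 * (x * σ + ε * t₂) ^ 2) = S at *
    have hwpos : 0 < w := by linarith
    have ha2 : a ^ 2 ≠ 0 := pow_ne_zero 2 ha
    have e1 : (x * σ + ε * t₂) ^ 2 / (S + (x + ε * t₁)) = (S - (x + ε * t₁)) / a ^ 2 := by
      rw [div_eq_div_iff (by linarith) ha2]
      linear_combination (-1) * hS2
    have e2 : σ ^ 2 / (w + 1) = (w - 1) / a ^ 2 := by
      rw [div_eq_div_iff (by linarith) ha2]
      linear_combination (-1) * hw2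
    have e3 : ε ^ 2 * ((t₂ - σ * t₁) ^ 2 /
        ((1 + a ^ 2 * σ ^ 2) * (S + x * w + ε * (t₁ + a ^ 2 * σ * t₂) / w))) =
        (S - (x * w + ε * (t₁ + a ^ 2 * σ * t₂) / w)) / a ^ 2 := by
      rw [← hw2, ← mul_div_assoc, div_eq_div_iff (by positivity) ha2]
      have h3 : (S - (x * w + ε * (t₁ + a ^ 2 * σ * t₂) / w)) *
          (w ^ 2 * (S + x * w + ε * (t₁ + a ^ 2 * σ * t₂) / w))
          = w ^ 2 * S ^ 2 - (x * w ^ 2 + ε * (t₁ + a ^ 2 * σ * t₂)) ^ 2 := by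
        field_simp
        ring
      rw [h3, hS2, hw2]
      ring
    have e4 : (w - 1) / a ^ 2 - σ * (σ / w) = (1 / w - 1) / a ^ 2 := by
      field_simp
      linear_combination hw2
    rw [e1, e2, e3, e4]
    field_simp
    ring

/-- the amplitude -/
noncomputable def PS (q : (Fin 5 → ℝ) × (ℝ × ℝ)) : ℂ :=
  e (q.1 0 * EE (q.1 1) (q.1 2) (q.1 3) (q.1 4) q.2.1 q.2.2) *
    ((psi2 q.2.1 * psi2 q.2.2 : ℝ) : ℂ)

/-- the open set of parameters -/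
def OO : Set (Fin 5 → ℝ) := {p | |p 1| < 3 / 2 ∧ |p 2| < 1 / 60 ∧ 1 / 10 < p 3}

theorem isOpen_OO : IsOpen OO := by
  unfold OO
  exact (isOpen_lt (continuous_apply (1 : Fin 5)).abs continuous_const).inter
    ((isOpen_lt (continuous_apply (2 : Fin 5)).abs continuous_const).inter
      (isOpen_lt continuous_const (continuous_apply (3 : Fin 5))))

/-- the closed set containing the support -/
def SU : Set ((Fin 5 → ℝ) × (ℝ × ℝ)) := {q | |q.2.1| ≤ 2 ∧ |q.2.2| ≤ 2}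

theorem isClosed_SU : IsClosed SU := by
  unfold SU
  exact (isClosed_le (continuous_fst.comp continuous_snd).abs continuous_const).inter
    (isClosed_le (continuous_snd.comp continuous_snd).abs continuous_const)

theorem amp_zero {t₁ t₂ : ℝ} (h : ¬ (|t₁| ≤ 2 ∧ |t₂| ≤ 2)) : psi2 t₁ * psi2 t₂ = 0 := by
  by_cases h1 : |t₁| ≤ 2
  · have h2 : 2 < |t₂| := by
      by_contra h'
      exact h ⟨h1, not_lt.1 h'⟩
    rw [psi2_zero h2.le, mul_zero]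
  · rw [psi2_zero (not_le.1 h1).le, zero_mul]

theorem smooth_PS : ContDiffOn ℝ (⊤ : ℕ∞) PS (OO ×ˢ univ) := by
  refine contDiffOn_of_vanish (isOpen_OO.prod isOpen_univ) isClosed_SU ?_ ?_
  · rintro q - hq
    unfold PS
    rw [amp_zero hq, Complex.ofReal_zero, mul_zero]
  · rintro q ⟨⟨h1, h2, h3⟩, -⟩ ⟨ht1, ht2⟩
    obtain ⟨hx, hD⟩ := DD_pos (σ := q.1 4) h1 h2 h3 ht1 ht2
    have hw := one_le_w (q.1 1) (q.1 4)
    have c0 : ∀ i : Fin 5, ContDiffAt ℝ (⊤ : ℕ∞) (fun q : (Fin 5 → ℝ) × (ℝ × ℝ) => q.1 i) q := by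
      intro i
      exact ((contDiff_apply ℝ ℝ i).comp contDiff_fst).contDiffAt
    have c1 : ContDiffAt ℝ (⊤ : ℕ∞) (fun q : (Fin 5 → ℝ) × (ℝ × ℝ) => q.2.1) q :=
      (contDiff_fst.comp contDiff_snd).contDiffAt
    have c2 : ContDiffAt ℝ (⊤ : ℕ∞) (fun q : (Fin 5 → ℝ) × (ℝ × ℝ) => q.2.2) q :=
      (contDiff_snd.comp contDiff_snd).contDiffAt
    have cw : ContDiffAt ℝ (⊤ : ℕ∞) (fun q : (Fin 5 → ℝ) × (ℝ × ℝ) =>
        Real.sqrt (1 + (q.1 1) ^ 2 * (q.1 4) ^ 2)) q := by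
      refine ContDiffAt.sqrt ?_ ?_
      · exact contDiffAt_const.add (((c0 1).pow 2).mul ((c0 4).pow 2))
      · positivity
    have cS : ContDiffAt ℝ (⊤ : ℕ∞) (fun q : (Fin 5 → ℝ) × (ℝ × ℝ) =>
        Real.sqrt ((q.1 3 + q.1 2 * q.2.1) ^ 2 +
          (q.1 1) ^ 2 * (q.1 3 * q.1 4 + q.1 2 * q.2.2) ^ 2)) q := by
      refine ContDiffAt.sqrt ?_ ?_
      · exact (((c0 3).add ((c0 2).mul c1)).pow 2).add (((c0 1).pow 2).mul
          ((((c0 3).mul (c0 4)).add ((c0 2).mul c2)).pow 2))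
      · positivity
    have cD : ContDiffAt ℝ (⊤ : ℕ∞) (fun q : (Fin 5 → ℝ) × (ℝ × ℝ) =>
        DD (q.1 1) (q.1 2) (q.1 3) (q.1 4) q.2.1 q.2.2) q := by
      unfold DD
      refine (cS.add ((c0 3).mul cw)).add (ContDiffAt.div ?_ cw (by linarith))
      exact (c0 2).mul (c1.add ((((c0 1).pow 2).mul (c0 4)).mul c2))
    have cE : ContDiffAt ℝ (⊤ : ℕ∞) (fun q : (Fin 5 → ℝ) × (ℝ × ℝ) =>
        EE (q.1 1) (q.1 2) (q.1 3) (q.1 4) q.2.1 q.2.2) q := by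
      unfold EE
      refine ((c2.sub ((c0 4).mul c1)).pow 2).div
        ((contDiffAt_const.add (((c0 1).pow 2).mul ((c0 4).pow 2))).mul cD) ?_
      have : 0 < 1 + (q.1 1) ^ 2 * (q.1 4) ^ 2 := by positivity
      exact (mul_pos this hD).ne'
    unfold PS
    refine ContDiffAt.mul ?_ ?_
    · exact contDiff_e.contDiffAt.comp q ((c0 0).mul cE)
    · refine (Complex.ofRealCLM.contDiff (n := (⊤ : ℕ∞))).contDiffAt.comp q (ContDiffAt.mul ?_ ?_)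
      · exact contDiff_psi2.contDiffAt.comp q c1
      · exact contDiff_psi2.contDiffAt.comp q c2

theorem supp_PS (p : Fin 5 → ℝ) (ζ : ℝ × ℝ) (h : 2 < ‖ζ‖) : PS (p, ζ) = 0 := by
  unfold PS
  simp only
  have : psi2 ζ.1 * psi2 ζ.2 = 0 := by
    apply amp_zero
    rintro ⟨h1, h2⟩
    rw [Prod.norm_def, lt_max_iff, Real.norm_eq_abs, Real.norm_eq_abs] at h
    rcases h with h | h <;> linarith
  rw [this, Complex.ofReal_zero, mul_zero]

theorem U_cpf (a l h : ℝ) (c : ℤ × ℤ) (ha : a ∈ Icc (0 : ℝ) 1) (hc : okc l c) (y : ℝ × ℝ) :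
    ‖U a h (cpf l c) y‖ = (l ^ 2)⁻¹ * ‖Fi (fun ζ => PS (![h / l ^ 2, a, 1 / l, c.1 / l,
      (c.2 : ℝ) / c.1], ζ))
      ((y + h • gr a ((c.2 : ℝ) / c.1)).1 / l, (y + h • gr a ((c.2 : ℝ) / c.1)).2 / l)‖ := by
  obtain ⟨hl, hc1, hc2, hc3⟩ := hc
  have hl0 : 0 < l := by linarith
  have hc0 : 0 < (c.1 : ℝ) := by linarith
  set σ : ℝ := (c.2 : ℝ) / c.1 with hσ
  set x : ℝ := (c.1 : ℝ) / l with hx
  have hxσ : x * σ = (c.2 : ℝ) / l := by
    rw [hx, hσ]; field_simp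
  have key : U a h (cpf l c) y = ((l ^ 2)⁻¹ : ℝ) • (e (y.1 * x + y.2 * (x * σ) + h * (x * hh a σ)) *
      Fi (fun ζ => PS (![h / l ^ 2, a, 1 / l, x, σ], ζ))
      ((y + h • gr a σ).1 / l, (y + h • gr a σ).2 / l)) := by
    unfold U Fi
    rw [integral_lin (1 / l) 0 0 (1 / l) (by simp [hl0.ne'])]
    have h1 : |1 / l * (1 / l) - 0 * 0| = (l ^ 2)⁻¹ := by
      rw [mul_zero, sub_zero, abs_of_pos (by positivity)]
      field_simp
    rw [h1]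
    congr 1
    rw [← integral_add_left_eq_self (μ := (volume : Measure (ℝ × ℝ))) _ ((c.1 : ℝ), (c.2 : ℝ)),
      ← integral_const_mul]
    congr 1
    funext t
    obtain ⟨t₁, t₂⟩ := t
    simp only [Prod.mk_add_mk, zero_mul, add_zero, zero_add]
    unfold PS
    have hp0 : (![h / l ^ 2, a, 1 / l, x, σ] : Fin 5 → ℝ) 0 = h / l ^ 2 := rfl
    have hp1 : (![h / l ^ 2, a, 1 / l, x, σ] : Fin 5 → ℝ) 1 = a := rfl
    have hp2 : (![h / l ^ 2, a, 1 / l, x, σ] : Fin 5 → ℝ) 2 = 1 / l := rfl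
    have hp3 : (![h / l ^ 2, a, 1 / l, x, σ] : Fin 5 → ℝ) 3 = x := rfl
    have hp4 : (![h / l ^ 2, a, 1 / l, x, σ] : Fin 5 → ℝ) 4 = σ := rfl
    simp only [hp0, hp1, hp2, hp3, hp4]
    unfold cpf
    simp only
    have e1 : l * (1 / l * ((c.1 : ℝ) + t₁)) - c.1 = t₁ := by field_simp; ring
    have e2 : l * (1 / l * ((c.2 : ℝ) + t₂)) - c.2 = t₂ := by field_simp; ring
    rw [e1, e2]
    by_cases ht : |t₁| ≤ 2 ∧ |t₂| ≤ 2
    · have hxx : 1 / 10 < x := by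
        rw [hx, lt_div_iff₀ hl0]; linarith
      have hε : |1 / l| < 1 / 60 := by
        rw [abs_of_pos (by positivity)]
        exact one_div_lt_one_div_of_lt (by norm_num) (by linarith)
      obtain ⟨hx0, hD⟩ := DD_pos (σ := σ) (a := a) (by rw [abs_of_nonneg ha.1]; linarith [ha.2])
        hε hxx ht.1 ht.2
      have e3 : 1 / l * ((c.1 : ℝ) + t₁) = x + 1 / l * t₁ := by rw [hx]; ring
      have e4 : 1 / l * ((c.2 : ℝ) + t₂) = x * σ + 1 / l * t₂ := by rw [hxσ]; ring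
      rw [e3, e4, ph_id hx0 hD, ← mul_assoc, ← mul_assoc, ← mul_assoc, ← e_add, ← e_add, ← e_add]
      congr 2
      unfold gr
      simp only [Prod.fst_add, Prod.snd_add, Prod.smul_fst, Prod.smul_snd, smul_eq_mul]
      field_simp
      ring
    · rw [amp_zero ht]
      simp
  rw [key, norm_smul, norm_mul, norm_e, one_mul, Real.norm_eq_abs, abs_of_pos (by positivity)]

theorem capk_proof (hKB : T_KB) : T_CAPK := by
  intro N
  obtain ⟨C, hC⟩ := hKB 5 (Icc ![-1, 0, 0, 1 / 8, -2] ![1, 1, 1 / 64, 4, 2]) OO PS 2 isCompact_Icc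
    isOpen_OO
    (by
      rintro p ⟨h1, h2⟩
      have a1 := h1 1
      have a2 := h2 1
      have b1 := h1 2
      have b2 := h2 2
      have c1 := h1 3
      simp at a1 a2 b1 b2 c1
      refine ⟨?_, ?_, ?_⟩
      · rw [abs_of_nonneg a1]; linarith
      · rw [abs_of_nonneg b1]; linarith
      · linarith) smooth_PS
    (fun p _ ζ h => supp_PS p ζ h) N
  refine ⟨C, ?_⟩
  intro a ha l h c hc hh' y
  rw [U_cpf a l h c ha hc y]
  obtain ⟨hl, hc1, hc2, hc3⟩ := hc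
  have hl0 : 0 < l := by linarith
  have hc0 : 0 < (c.1 : ℝ) := by linarith
  have hp : (![h / l ^ 2, a, 1 / l, c.1 / l, (c.2 : ℝ) / c.1] : Fin 5 → ℝ) ∈
      Icc (![-1, 0, 0, 1 / 8, -2] : Fin 5 → ℝ) ![1, 1, 1 / 64, 4, 2] := by
    have h1 : |h / l ^ 2| ≤ 1 := by
      rw [abs_div, abs_of_pos (show (0 : ℝ) < l ^ 2 by positivity), div_le_one (by positivity)]
      exact hh'
    rw [abs_le] at h1
    have h2 : |(c.2 : ℝ) / c.1| ≤ 2 := by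
      rw [abs_div, abs_of_pos hc0, div_le_iff₀ hc0]
      exact hc3
    rw [abs_le] at h2
    have h3 : 1 / 8 ≤ (c.1 : ℝ) / l := by rw [le_div_iff₀ hl0]; linarith
    have h4 : (c.1 : ℝ) / l ≤ 4 := by rw [div_le_iff₀ hl0]; linarith
    have h5 : 1 / l ≤ 1 / 64 := one_div_le_one_div_of_le (by norm_num) hl
    refine ⟨?_, ?_⟩
    · intro i
      fin_cases i
      · exact h1.1
      · exact ha.1
      · exact (one_div_pos.2 hl0).le
      · exact h3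
      · exact h2.1
    · intro i
      fin_cases i
      · exact h1.2
      · exact ha.2
      · exact h5
      · exact h4
      · exact h2.2
  have h1 := hC _ hp ((y + h • gr a ((c.2 : ℝ) / c.1)).1 / l, (y + h • gr a ((c.2 : ℝ) / c.1)).2 / l)
  simp only [abs_div, abs_of_pos hl0] at h1
  calc _ = (l ^ 2)⁻¹ * (‖Fi (fun ζ => PS (![h / l ^ 2, a, 1 / l, c.1 / l,
      (c.2 : ℝ) / c.1], ζ))
      ((y + h • gr a ((c.2 : ℝ) / c.1)).1 / l, (y + h • gr a ((c.2 : ℝ) / c.1)).2 / l)‖ *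
      ((1 + |(y + h • gr a ((c.2 : ℝ) / c.1)).1| / l) *
        (1 + |(y + h • gr a ((c.2 : ℝ) / c.1)).2| / l)) ^ N) := by ring
    _ ≤ (l ^ 2)⁻¹ * C := mul_le_mul_of_nonneg_left h1 (by positivity)
    _ = C / l ^ 2 := by ring

end Pool.Agent.H2.LS.CK
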