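import Mathlib
import Pool.Agent.H2.LS.Tools

/-!
Local smoothing, module LINF: the sup norm.
-/

set_option autoImplicit false

namespace Pool.Agent.H2.LS

open MeasureTheory Set Pool.Agent.H83.LS
open scoped ENNReal NNReal

theorem continuous_Fi {b : ℝ × ℝ → ℂ} (hb : Integrable b) : Continuous (Fi b) := by
  unfold Fi
  refine continuous_of_dominated (bound := fun ζ => ‖b ζ‖)
    (fun y => (integrable_e_mul hb y).aestronglyMeasurable) ?_ hb.norm ?_
  · intro y
    refine Filter.Eventually.of_forall fun ζ => ?_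
    rw [norm_mul, norm_e, one_mul]
  · refine Filter.Eventually.of_forall fun ζ => ?_
    exact (continuous_e.comp (by fun_prop)).mul continuous_const

/-- convolution with an integrable kernel is bounded by the sup norm -/
theorem conv_sup (hCONV : T_CONV) {χ b : ℝ × ℝ → ℂ} (hχ : TC χ) (hb : TC b) (y : ℝ × ℝ) :
    ‖Fi (fun ζ => χ ζ * b ζ) y‖ₑ ≤ (∫⁻ z, ‖Fi χ z‖ₑ) * supn (Fi b) := by
  rw [hCONV χ b hχ hb y]
  refine (enorm_integral_le_lintegral_enorm _).trans ?_
  calc ∫⁻ y', ‖Fi χ (y - y') * Fi b y'‖ₑ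
      ≤ ∫⁻ y', ‖Fi χ (y - y')‖ₑ * supn (Fi b) := by
        refine lintegral_mono fun y' => ?_
        rw [enorm_mul]
        exact mul_le_mul_right (le_iSup (fun y => ‖Fi b y‖ₑ) y') _
    _ = (∫⁻ y', ‖Fi χ (y - y')‖ₑ) * supn (Fi b) := by
        have hm : Measurable fun y' : ℝ × ℝ => ‖Fi χ (y - y')‖ₑ :=
          ((continuous_Fi hχ.integrable).comp
            (by fun_prop : Continuous fun y' : ℝ × ℝ => y - y')).measurable.enorm
        rw [lintegral_mul_const _ hm]
    _ = (∫⁻ z, ‖Fi χ z‖ₑ) * supn (Fi b) := by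
        rw [lintegral_sub_left_eq_self (fun z => ‖Fi χ z‖ₑ) y]

theorem linf_proof (hSEC1 : T_SEC1) (hCONV : T_CONV) (hCUT : T_CUT) (hTCU : T_TCU) : T_LINF := by
  obtain ⟨C, hC⟩ := hSEC1.1
  refine ⟨7 * C, ?_⟩
  intro a ha s b hb
  set R : ℝ := Real.sqrt (1 + |s|) with hR
  have hR1 : 1 ≤ R := by
    rw [hR, show (1 : ℝ) = Real.sqrt 1 by simp]
    apply Real.sqrt_le_sqrt
    simp
  have hR2 : R ^ 2 = 1 + |s| := Real.sq_sqrt (by positivity)
  have hR0 : 0 < R := by linarith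
  set ν : ℝ := 1 / R with hν
  have hν0 : 0 < ν := by positivity
  have hν1 : ν ≤ 1 := by rw [hν, div_le_one hR0]; exact hR1
  have hsν : |s| * ν ^ 2 ≤ 1 := by
    rw [hν, div_pow, one_pow, hR2, mul_one_div, div_le_one (by positivity)]
    linarith
  set J : ℤ := ⌈R⌉ + 1 with hJ
  have hJ1 : 1 / ν + 1 ≤ J := by
    rw [hν, one_div_one_div, hJ]
    push_cast
    have := Int.le_ceil R
    linarith
  have hJ2 : (J : ℝ) ≤ R + 2 := by
    rw [hJ]
    push_cast
    have := (Int.ceil_lt_add_one R).le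
    linarith
  have hJ0 : 0 ≤ J := by
    have : (0 : ℝ) ≤ (J : ℝ) := by
      have : 0 ≤ 1 / ν := by positivity
      linarith
    exact_mod_cast this
  obtain ⟨hc1, hc2, -⟩ := hCUT
  -- the pieces
  have hTC : ∀ j : ℤ, TC (fun ζ => e (s * ph a ζ) * sc ν (j * ν) ζ) := by
    intro j
    obtain ⟨h1, h2, h3⟩ := hc1 ν (j * ν) hν0
    refine hTCU a ha s _ h1 fun ζ hζ => ?_
    have := (h3 ζ hζ).1
    linarith
  have hsplit : ∀ ζ, e (s * ph a ζ) * b ζ =
      ∑ j ∈ Finset.Icc (-J) J, (e (s * ph a ζ) * sc ν (j * ν) ζ) * b ζ := by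
    intro ζ
    by_cases hζ : b ζ = 0
    · simp [hζ]
    · have h1 := hc2 ν J hν0 hJ1 ζ (hb.2 ζ hζ)
      calc e (s * ph a ζ) * b ζ = e (s * ph a ζ) * (∑ j ∈ Finset.Icc (-J) J, sc ν (j * ν) ζ) * b ζ := by
            rw [h1, mul_one]
        _ = _ := by
            rw [Finset.mul_sum, Finset.sum_mul]
  have hint : ∀ j ∈ Finset.Icc (-J) J,
      Integrable (fun ζ => (e (s * ph a ζ) * sc ν (j * ν) ζ) * b ζ) := by
    intro j _
    exact (TC.mul (hTC j).1 hb.1).integrable
  refine iSup_le fun y => ?_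
  have h1 : U a s b y = ∑ j ∈ Finset.Icc (-J) J,
      Fi (fun ζ => (e (s * ph a ζ) * sc ν (j * ν) ζ) * b ζ) y := by
    rw [← Fi_sum _ _ hint]
    unfold U
    congr 1
    funext ζ
    exact hsplit ζ
  rw [h1]
  calc ‖∑ j ∈ Finset.Icc (-J) J, Fi (fun ζ => (e (s * ph a ζ) * sc ν (j * ν) ζ) * b ζ) y‖ₑ
      ≤ ∑ j ∈ Finset.Icc (-J) J, ‖Fi (fun ζ => (e (s * ph a ζ) * sc ν (j * ν) ζ) * b ζ) y‖ₑ :=
        enorm_sum_le _ _
    _ ≤ ∑ j ∈ Finset.Icc (-J) J, C * supn (Fi b) := by
        refine Finset.sum_le_sum fun j hj => ?_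
        refine (conv_sup hCONV (hTC j) hb.1 y).trans ?_
        have hj' := Finset.mem_Icc.1 hj
        have hjν : ((j : ℝ) * ν) ∈ Icc (-4 : ℝ) 4 := by
          have h2 : |(j : ℝ)| ≤ J := by
            rw [abs_le]
            exact ⟨by exact_mod_cast hj'.1, by exact_mod_cast hj'.2⟩
          have h3 : |(j : ℝ) * ν| ≤ 4 := by
            rw [abs_mul, abs_of_pos hν0]
            calc |(j : ℝ)| * ν ≤ (R + 2) * ν := by
                  apply mul_le_mul_of_nonneg_right (h2.trans hJ2) hν0.le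
              _ = 1 + 2 * ν := by rw [hν]; field_simp
              _ ≤ 4 := by linarith
          exact abs_le.1 h3
        exact mul_le_mul_left (hC a ha ν ⟨hν0, hν1⟩ (j * ν) hjν s hsν) _
    _ = (Finset.Icc (-J) J).card * (C * supn (Fi b)) := by
        rw [Finset.sum_const, nsmul_eq_mul]
    _ ≤ ENNReal.ofReal (7 * R) * (C * supn (Fi b)) := by
        apply mul_le_mul_left
        rw [← ENNReal.ofReal_natCast]
        apply ENNReal.ofReal_le_ofReal
        rw [Int.card_Icc]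
        have h4 : ((J + 1 - -J).toNat : ℤ) = J + 1 - -J := Int.toNat_of_nonneg (by linarith)
        have h5 : (((J + 1 - -J).toNat : ℕ) : ℝ) = J + 1 + J := by
          have : (((J + 1 - -J).toNat : ℤ) : ℝ) = ((J + 1 - -J : ℤ) : ℝ) := by rw [h4]
          push_cast at this
          simpa using this
        rw [h5]
        linarith
    _ = (7 * C : ℝ≥0) * ENNReal.ofReal R * supn (Fi b) := by
        rw [ENNReal.ofReal_mul (by norm_num)]
        push_cast
        have : ENNReal.ofReal 7 = 7 := by norm_num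
        rw [this]
        ring

end Pool.Agent.H2.LS
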