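import Mathlib
import Pool.Agent.H2.LS.Tools

/-!
Local smoothing, module SEC1: `L¹` norms and tails of the kernels of planks.
-/

set_option autoImplicit false

namespace Pool.Agent.H2.LS

open MeasureTheory Set Pool.Agent.H83.LS
open scoped ENNReal NNReal

theorem lint_shear (μ s₀ α β : ℝ) (hμ : 0 < μ) (H : ℝ × ℝ → ℝ≥0∞) :
    ∫⁻ y : ℝ × ℝ, H (y.1 + s₀ * y.2 + α, μ * (y.2 + β)) =
      (ENNReal.ofReal μ)⁻¹ * ∫⁻ x, H x := by
  have h1 : ∫⁻ x, H x = ∫⁻ x : ℝ × ℝ, H (x + (α, μ * β)) :=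
    (lintegral_add_right_eq_self H (α, μ * β)).symm
  have h2 : |1 * μ - s₀ * 0| = μ := by
    rw [one_mul, mul_zero, sub_zero, abs_of_pos hμ]
  have h3 := lintegral_lin 1 s₀ 0 μ (by simpa using hμ.ne')
    (fun x : ℝ × ℝ => H (x + (α, μ * β)))
  rw [h1, h3, h2, ← mul_assoc, ENNReal.inv_mul_cancel (by simpa using hμ) ENNReal.ofReal_ne_top, one_mul]
  refine lintegral_congr fun y => ?_
  congr 1
  simp only [Prod.mk_add_mk, one_mul, zero_mul, zero_add]
  rw [mul_add]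

/-- the model weight -/
noncomputable def PP (x : ℝ × ℝ) : ℝ := (1 + |x.1|) * (1 + |x.2|)

theorem one_le_PP (x : ℝ × ℝ) : 1 ≤ PP x := by
  unfold PP
  have h1 := abs_nonneg x.1
  have h2 := abs_nonneg x.2
  nlinarith

theorem J_lt_top : ∫⁻ x : ℝ × ℝ, ENNReal.ofReal ((PP x ^ 2)⁻¹) < ⊤ := by
  have h1 : ∀ x : ℝ × ℝ, ENNReal.ofReal ((PP x ^ 2)⁻¹) =
      ENNReal.ofReal ((1 + ‖x.1‖) ^ (-(2 : ℝ))) * ENNReal.ofReal ((1 + ‖x.2‖) ^ (-(2 : ℝ))) := by
    intro x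
    rw [← ENNReal.ofReal_mul (by positivity)]
    congr 1
    unfold PP
    rw [Real.norm_eq_abs, Real.norm_eq_abs, Real.rpow_neg (by positivity),
      Real.rpow_neg (by positivity), mul_pow, mul_inv]
    norm_num [Real.rpow_natCast]
  simp_rw [h1]
  have hm : Measurable fun x : ℝ => ENNReal.ofReal ((1 + ‖x‖) ^ (-(2 : ℝ))) := by fun_prop
  rw [Measure.volume_eq_prod, lintegral_prod_mul hm.aemeasurable hm.aemeasurable]
  have h2 : ∫⁻ x : ℝ, ENNReal.ofReal ((1 + ‖x‖) ^ (-(2 : ℝ))) < ⊤ :=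
    finite_integral_one_add_norm (by simp)
  exact ENNReal.mul_lt_top h2 h2

theorem seck_bound (hS : T_SECK) (N : ℕ) : ∃ C : ℝ, 0 ≤ C ∧ ∀ a ∈ Icc (0 : ℝ) 1,
    ∀ μ ∈ Ioc (0 : ℝ) 1, ∀ s₀ ∈ Icc (-4 : ℝ) 4, ∀ s : ℝ, |s| * μ ^ 2 ≤ 1 → ∀ y : ℝ × ℝ,
    ‖U a s (sc μ s₀) y‖ ≤
      C * μ * (PP (y.1 + s₀ * y.2 + s * hh a s₀, μ * (y.2 + s * dh a s₀)) ^ N)⁻¹ := by
  obtain ⟨C, hC⟩ := hS N
  refine ⟨|C|, abs_nonneg C, ?_⟩
  intro a ha μ hμ s₀ hs₀ s hs y
  have h1 := hC a ha μ hμ s₀ hs₀ s hs y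
  have h2 : (1 + |y.1 + s₀ * y.2 + s * hh a s₀|) * (1 + μ * |y.2 + s * dh a s₀|) =
      PP (y.1 + s₀ * y.2 + s * hh a s₀, μ * (y.2 + s * dh a s₀)) := by
    unfold PP
    rw [abs_mul, abs_of_pos hμ.1]
  rw [h2] at h1
  have h3 := one_le_PP (y.1 + s₀ * y.2 + s * hh a s₀, μ * (y.2 + s * dh a s₀))
  rw [← div_eq_mul_inv, le_div_iff₀ (by positivity)]
  refine h1.trans ?_
  exact mul_le_mul_of_nonneg_right (le_abs_self C) hμ.1.le

theorem shear_int (μ s₀ α β D : ℝ) (hμ : 0 < μ) (hD : 0 ≤ D) :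
    ∫⁻ y : ℝ × ℝ, ENNReal.ofReal (D * μ * (PP (y.1 + s₀ * y.2 + α, μ * (y.2 + β)) ^ 2)⁻¹) =
      ENNReal.ofReal D * ∫⁻ x : ℝ × ℝ, ENNReal.ofReal ((PP x ^ 2)⁻¹) := by
  have h1 : ∀ y : ℝ × ℝ, ENNReal.ofReal (D * μ * (PP (y.1 + s₀ * y.2 + α, μ * (y.2 + β)) ^ 2)⁻¹) =
      ENNReal.ofReal (D * μ) *
        (fun x => ENNReal.ofReal ((PP x ^ 2)⁻¹)) (y.1 + s₀ * y.2 + α, μ * (y.2 + β)) := by
    intro y
    simp only
    rw [← ENNReal.ofReal_mul (by positivity)]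
  simp_rw [h1]
  rw [lintegral_const_mul' _ _ ENNReal.ofReal_ne_top,
    lint_shear μ s₀ α β hμ (fun x => ENNReal.ofReal ((PP x ^ 2)⁻¹)), ← mul_assoc,
    ENNReal.ofReal_mul hD, mul_assoc (ENNReal.ofReal D),
    ENNReal.mul_inv_cancel (by simpa using hμ) ENNReal.ofReal_ne_top, mul_one]

theorem sec1_proof (hS : T_SECK) : T_SEC1 := by
  have hJ := J_lt_top
  set J : ℝ≥0∞ := ∫⁻ x : ℝ × ℝ, ENNReal.ofReal ((PP x ^ 2)⁻¹) with hJdef
  refine ⟨?_, ?_⟩
  · obtain ⟨C, hC0, hC⟩ := seck_bound hS 2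
    refine ⟨(ENNReal.ofReal C * J).toNNReal, ?_⟩
    intro a ha μ hμ s₀ hs₀ s hs
    rw [ENNReal.coe_toNNReal (ENNReal.mul_lt_top ENNReal.ofReal_lt_top hJ).ne]
    calc ∫⁻ y, ‖U a s (sc μ s₀) y‖ₑ
        ≤ ∫⁻ y : ℝ × ℝ, ENNReal.ofReal (C * μ *
          (PP (y.1 + s₀ * y.2 + s * hh a s₀, μ * (y.2 + s * dh a s₀)) ^ 2)⁻¹) := by
          refine lintegral_mono fun y => ?_
          rw [← ofReal_norm]
          exact ENNReal.ofReal_le_ofReal (hC a ha μ hμ s₀ hs₀ s hs y)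
      _ = _ := shear_int μ s₀ _ _ C hμ.1 hC0
  · intro N
    obtain ⟨C, hC0, hC⟩ := seck_bound hS (N + 10)
    refine ⟨256 * C * 8 ^ N * J.toReal, ?_⟩
    intro a ha μ hμ s₀ hs₀ s r hs hr
    have hμ0 := hμ.1
    have hr0 : 0 < r := lt_of_lt_of_le (by positivity) hr
    have hμr : 1 ≤ μ * r := by
      rw [div_le_iff₀ hμ0] at hr
      linarith
    have hr1 : 1 ≤ r := by
      have : μ * r ≤ 1 * r := mul_le_mul_of_nonneg_right hμ.2 hr0.le
      linarith
    have hs4 : |s₀| ≤ 4 := abs_le.2 ⟨hs₀.1, hs₀.2⟩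
    have hU : ∀ z, Fi (fun ζ => e (s * ph a ζ) * sc μ s₀ ζ) z = U a s (sc μ s₀) z := fun z => rfl
    unfold tailI
    set c : ℝ × ℝ := -(s • gr a s₀) with hc
    have hc1 : c.1 = -(s * (hh a s₀ - s₀ * dh a s₀)) := rfl
    have hc2 : c.2 = -(s * dh a s₀) := rfl
    have hpt : ∀ z ∈ {z : ℝ × ℝ | r ≤ ‖z - c‖},
        ‖Fi (fun ζ => e (s * ph a ζ) * sc μ s₀ ζ) z‖ₑ *
          ENNReal.ofReal (((1 + |z.1 - c.1| / r) * (1 + |z.2 - c.2| / r)) ^ 4) ≤
        ENNReal.ofReal ((256 * C * 8 ^ N / (μ * r) ^ N) * μ *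
          (PP (z.1 + s₀ * z.2 + s * hh a s₀, μ * (z.2 + s * dh a s₀)) ^ 2)⁻¹) := by
      intro z hz
      rw [hU, ← ofReal_norm, ← ENNReal.ofReal_mul (norm_nonneg _)]
      apply ENNReal.ofReal_le_ofReal
      have h1 := hC a ha μ hμ s₀ hs₀ s hs z
      have hP1 := one_le_PP (z.1 + s₀ * z.2 + s * hh a s₀, μ * (z.2 + s * dh a s₀))
      have hw1 : z.1 + s₀ * z.2 + s * hh a s₀ = (z.1 - c.1) + s₀ * (z.2 - c.2) := by
        rw [hc1, hc2]; ring
      have hw2 : z.2 + s * dh a s₀ = z.2 - c.2 := by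
        rw [hc2]; ring
      have hPP : PP (z.1 + s₀ * z.2 + s * hh a s₀, μ * (z.2 + s * dh a s₀)) =
          (1 + |(z.1 - c.1) + s₀ * (z.2 - c.2)|) * (1 + μ * |z.2 - c.2|) := by
        unfold PP
        simp only
        rw [hw1, hw2, abs_mul, abs_of_pos hμ0]
      have hz' : r ≤ |z.1 - c.1| ∨ r ≤ |z.2 - c.2| := by
        have : r ≤ ‖z - c‖ := hz
        rw [Prod.norm_def, le_max_iff] at this
        exact this
      set P := PP (z.1 + s₀ * z.2 + s * hh a s₀, μ * (z.2 + s * dh a s₀)) with hPdef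
      generalize z.1 - c.1 = w₁ at *
      generalize z.2 - c.2 = w₂ at *
      have hA := abs_nonneg (w₁ + s₀ * w₂)
      have hw2n := abs_nonneg w₂
      have hs0w : |s₀ * w₂| ≤ 4 * |w₂| := by
        rw [abs_mul]; exact mul_le_mul_of_nonneg_right hs4 hw2n
      have hw1le : |w₁| ≤ |w₁ + s₀ * w₂| + 4 * |w₂| := by
        have h3 : |w₁| ≤ |w₁ + s₀ * w₂| + |s₀ * w₂| := by
          calc |w₁| = |(w₁ + s₀ * w₂) - s₀ * w₂| := by congr 1; ring
            _ ≤ _ := abs_sub _ _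
        linarith
      set A := |w₁ + s₀ * w₂| with hAdef
      set B := μ * |w₂| with hBdef
      have hB : 0 ≤ B := by positivity
      have hw2r : |w₂| / r ≤ B := by
        rw [div_le_iff₀ hr0, hBdef]
        calc |w₂| = 1 * |w₂| := (one_mul _).symm
          _ ≤ (μ * r) * |w₂| := mul_le_mul_of_nonneg_right hμr hw2n
          _ = μ * |w₂| * r := by ring
      have hAr : A / r ≤ A := div_le_self hA hr1
      have hw1r : |w₁| / r ≤ A + 4 * B := by
        calc |w₁| / r ≤ (A + 4 * |w₂|) / r := div_le_div_of_nonneg_right hw1le hr0.le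
          _ = A / r + 4 * (|w₂| / r) := by ring
          _ ≤ _ := by linarith
      have hweight : (1 + |w₁| / r) * (1 + |w₂| / r) ≤ 4 * P ^ 2 := by
        calc (1 + |w₁| / r) * (1 + |w₂| / r) ≤ (1 + (A + 4 * B)) * (1 + B) :=
              mul_le_mul (by linarith) (by linarith) (by positivity) (by positivity)
          _ ≤ (4 * ((1 + A) * (1 + B))) * ((1 + A) * (1 + B)) := by
              apply mul_le_mul
              · nlinarith [mul_nonneg hA hB]
              · nlinarith [mul_nonneg hA hB]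
              · positivity
              · positivity
          _ = 4 * P ^ 2 := by rw [hPP]; ring
      have hlow : μ * r ≤ 8 * P := by
        rw [hPP]
        rcases le_total (r / 8) |w₂| with h4 | h4
        · have h5 : μ * r ≤ 8 * B := by
            rw [hBdef]
            have := mul_le_mul_of_nonneg_left h4 hμ0.le
            linarith
          nlinarith [mul_nonneg hA hB]
        · have h5 : r ≤ |w₁| := by
            rcases hz' with h6 | h6
            · exact h6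
            · linarith
          have h6 : r / 2 ≤ A := by linarith
          have h7 : μ * r ≤ r := by
            calc μ * r ≤ 1 * r := mul_le_mul_of_nonneg_right hμ.2 hr0.le
              _ = r := one_mul r
          nlinarith [mul_nonneg hA hB]
      have hP0 : 0 < P := by linarith
      have hlowN : (μ * r) ^ N ≤ 8 ^ N * P ^ N := by
        rw [← mul_pow]
        exact pow_le_pow_left₀ (by positivity) hlow N
      calc ‖U a s (sc μ s₀) z‖ * ((1 + |w₁| / r) * (1 + |w₂| / r)) ^ 4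
          ≤ (C * μ * (P ^ (N + 10))⁻¹) * (4 * P ^ 2) ^ 4 :=
            mul_le_mul h1 (pow_le_pow_left₀ (by positivity) hweight 4) (by positivity)
              (by positivity)
        _ = 256 * C * μ * (P ^ 2)⁻¹ * (P ^ N)⁻¹ := by
            field_simp
            ring
        _ ≤ 256 * C * μ * (P ^ 2)⁻¹ * (8 ^ N / (μ * r) ^ N) := by
            apply mul_le_mul_of_nonneg_left _ (by positivity)
            rw [inv_eq_one_div, div_le_div_iff₀ (by positivity) (by positivity), one_mul]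
            exact hlowN
        _ = _ := by ring
    calc ∫⁻ z in {z : ℝ × ℝ | r ≤ ‖z - c‖},
        ‖Fi (fun ζ => e (s * ph a ζ) * sc μ s₀ ζ) z‖ₑ *
          ENNReal.ofReal (((1 + |z.1 - c.1| / r) * (1 + |z.2 - c.2| / r)) ^ 4)
        ≤ ∫⁻ z in {z : ℝ × ℝ | r ≤ ‖z - c‖},
          ENNReal.ofReal ((256 * C * 8 ^ N / (μ * r) ^ N) * μ *
          (PP (z.1 + s₀ * z.2 + s * hh a s₀, μ * (z.2 + s * dh a s₀)) ^ 2)⁻¹) := by
          refine setLIntegral_mono' ?_ hpt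
          exact measurableSet_le measurable_const (by fun_prop)
      _ ≤ ∫⁻ z : ℝ × ℝ, ENNReal.ofReal ((256 * C * 8 ^ N / (μ * r) ^ N) * μ *
          (PP (z.1 + s₀ * z.2 + s * hh a s₀, μ * (z.2 + s * dh a s₀)) ^ 2)⁻¹) :=
          setLIntegral_le_lintegral _ _
      _ = ENNReal.ofReal (256 * C * 8 ^ N / (μ * r) ^ N) * J :=
          shear_int μ s₀ _ _ _ hμ0 (by positivity)
      _ = ENNReal.ofReal (256 * C * 8 ^ N * J.toReal / (μ * r) ^ N) := by
          rw [← ENNReal.ofReal_toReal hJ.ne, ← ENNReal.ofReal_mul (by positivity),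
            ENNReal.ofReal_toReal hJ.ne]
          congr 1
          ring

end Pool.Agent.H2.LS
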