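import Mathlib
import Pool.Agent.H2.LS.SEC1
import Pool.Agent.H2.LS.LINF

/-!
Local smoothing, module CAPT: transport of the energy of a cap.
-/

set_option autoImplicit false

namespace Pool.Agent.H2.LS

open MeasureTheory Set Pool.Agent.H83.LS
open scoped ENNReal NNReal

/-- the weight at scale `l` -/
noncomputable def MM (l : ℝ) (x : ℝ × ℝ) : ℝ := (1 + |x.1| / l) * (1 + |x.2| / l)

theorem one_le_MM {l : ℝ} (hl : 0 < l) (x : ℝ × ℝ) : 1 ≤ MM l x := by
  unfold MM
  have h1 : 0 ≤ |x.1| / l := by positivity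
  have h2 : 0 ≤ |x.2| / l := by positivity
  nlinarith

theorem om_eq (l : ℝ) (x : ℝ × ℝ) : om l x = (MM l x ^ 8)⁻¹ := rfl

theorem int_MM {l : ℝ} (hl : 0 < l) (v : ℝ × ℝ) :
    ∫⁻ z : ℝ × ℝ, ENNReal.ofReal ((MM l (z + v) ^ 2)⁻¹) =
      ENNReal.ofReal (l ^ 2) * ∫⁻ x : ℝ × ℝ, ENNReal.ofReal ((PP x ^ 2)⁻¹) := by
  rw [lintegral_add_right_eq_self (fun z : ℝ × ℝ => ENNReal.ofReal ((MM l z ^ 2)⁻¹)) v,
    lintegral_lin l 0 0 l (by simp [hl.ne'])]
  have h1 : |l * l - 0 * 0| = l ^ 2 := by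
    rw [mul_zero, sub_zero, abs_of_pos (by positivity)]; ring
  rw [h1]
  congr 1
  refine lintegral_congr fun x => ?_
  congr 3
  unfold MM PP
  simp only [zero_mul, add_zero, zero_add]
  rw [abs_mul, abs_mul, abs_of_pos hl]
  field_simp

/-- transport of weighted energies by convolution -/
theorem conv_en (hYG : T_YG) (l A : ℝ) (hl : 0 < l) (hA : 0 ≤ A) (v y₀ : ℝ × ℝ)
    (K G : ℝ × ℝ → ℂ) (hK : Continuous K) (hG : Continuous G)
    (hb : ∀ z, ‖K z‖ ≤ A / l ^ 2 * (MM l (z + v) ^ 6)⁻¹) :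
    En l y₀ (fun y => ∫ y', K (y - y') * G y') ≤
      (ENNReal.ofReal A * ∫⁻ x : ℝ × ℝ, ENNReal.ofReal ((PP x ^ 2)⁻¹)) ^ 2 *
        En l (y₀ + v) G := by
  set k : ℝ × ℝ → ℝ≥0∞ := fun z => ‖K z‖ₑ * ENNReal.ofReal (MM l (z + v) ^ 4) with hk
  set H : ℝ × ℝ → ℝ≥0∞ := fun y' => ENNReal.ofReal (Real.sqrt (om l (y' - (y₀ + v)))) * ‖G y'‖ₑ
    with hH
  have hkm : Measurable k := by
    refine hK.measurable.enorm.mul ?_
    unfold MM
    fun_prop
  have hHm : Measurable H := by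
    refine Measurable.mul ?_ hG.measurable.enorm
    exact ((measurable_om l).comp (by fun_prop)).sqrt.ennreal_ofReal
  have hkint : ∫⁻ z, k z ≤ ENNReal.ofReal A * ∫⁻ x : ℝ × ℝ, ENNReal.ofReal ((PP x ^ 2)⁻¹) := by
    calc ∫⁻ z, k z ≤ ∫⁻ z, ENNReal.ofReal (A / l ^ 2) * ENNReal.ofReal ((MM l (z + v) ^ 2)⁻¹) := by
          refine lintegral_mono fun z => ?_
          simp only [hk]
          rw [← ofReal_norm, ← ENNReal.ofReal_mul (norm_nonneg _), ← ENNReal.ofReal_mul (by positivity)]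
          apply ENNReal.ofReal_le_ofReal
          have hM := one_le_MM hl (z + v)
          have hM0 : 0 < MM l (z + v) := by linarith
          calc ‖K z‖ * MM l (z + v) ^ 4 ≤ (A / l ^ 2 * (MM l (z + v) ^ 6)⁻¹) * MM l (z + v) ^ 4 :=
                mul_le_mul_of_nonneg_right (hb z) (by positivity)
            _ = A / l ^ 2 * (MM l (z + v) ^ 2)⁻¹ := by
                field_simp
      _ = ENNReal.ofReal (A / l ^ 2) * (ENNReal.ofReal (l ^ 2) *
          ∫⁻ x : ℝ × ℝ, ENNReal.ofReal ((PP x ^ 2)⁻¹)) := by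
          rw [lintegral_const_mul' _ _ ENNReal.ofReal_ne_top, int_MM hl v]
      _ = _ := by
          rw [← mul_assoc, ← ENNReal.ofReal_mul (by positivity)]
          congr 2
          field_simp
  have hY := hYG (ℝ × ℝ) volume k H 2 hkm hHm (by norm_num)
  have hEn : En l (y₀ + v) G = ∫⁻ y, H y ^ (2 : ℝ) := by
    unfold En
    refine lintegral_congr fun y => ?_
    simp only [hH]
    rw [ENNReal.mul_rpow_of_nonneg _ _ (by norm_num), ENNReal.rpow_two, ENNReal.rpow_two,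
      ← ENNReal.ofReal_pow (Real.sqrt_nonneg _), Real.sq_sqrt (om_pos l hl _).le]
  have hle : En l y₀ (fun y => ∫ y', K (y - y') * G y') ≤
      ∫⁻ y, (∫⁻ y', k (y - y') * H y') ^ (2 : ℝ) := by
    unfold En
    refine lintegral_mono fun y => ?_
    have h1 : ENNReal.ofReal (om l (y - y₀)) =
        ENNReal.ofReal (Real.sqrt (om l (y - y₀))) ^ 2 := by
      rw [← ENNReal.ofReal_pow (Real.sqrt_nonneg _), Real.sq_sqrt (om_pos l hl _).le]
    simp only
    rw [h1, ← mul_pow, ENNReal.rpow_two]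
    refine pow_le_pow_left' ?_ 2
    calc ENNReal.ofReal (Real.sqrt (om l (y - y₀))) * ‖∫ y', K (y - y') * G y'‖ₑ
        ≤ ENNReal.ofReal (Real.sqrt (om l (y - y₀))) * ∫⁻ y', ‖K (y - y') * G y'‖ₑ :=
          mul_le_mul_right (enorm_integral_le_lintegral_enorm _) _
      _ = ∫⁻ y', ENNReal.ofReal (Real.sqrt (om l (y - y₀))) * ‖K (y - y') * G y'‖ₑ :=
          (lintegral_const_mul' _ _ ENNReal.ofReal_ne_top).symm
      _ ≤ ∫⁻ y', k (y - y') * H y' := by
          refine lintegral_mono fun y' => ?_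
          simp only [hk, hH]
          rw [enorm_mul]
          have h2 : Real.sqrt (om l (y - y₀)) ≤ MM l (y - y' + v) ^ 4 *
              Real.sqrt (om l (y' - (y₀ + v))) := by
            have h3 := om_shift l hl (y' - (y₀ + v)) (y - y' + v)
            have h4 : y' - (y₀ + v) + (y - y' + v) = y - y₀ := by abel
            rw [h4] at h3
            have h5 : ((1 + |(y - y' + v).1| / l) * (1 + |(y - y' + v).2| / l)) ^ 8 =
                (MM l (y - y' + v) ^ 4) ^ 2 := by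
              unfold MM; ring
            rw [h5] at h3
            calc Real.sqrt (om l (y - y₀)) ≤
                Real.sqrt ((MM l (y - y' + v) ^ 4) ^ 2 * om l (y' - (y₀ + v))) :=
                  Real.sqrt_le_sqrt h3
              _ = _ := by
                  have hM := one_le_MM hl (y - y' + v)
                  rw [Real.sqrt_mul (by positivity), Real.sqrt_sq (by positivity)]
          calc ENNReal.ofReal (Real.sqrt (om l (y - y₀))) * (‖K (y - y')‖ₑ * ‖G y'‖ₑ)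
              ≤ ENNReal.ofReal (MM l (y - y' + v) ^ 4 * Real.sqrt (om l (y' - (y₀ + v)))) *
                (‖K (y - y')‖ₑ * ‖G y'‖ₑ) :=
                mul_le_mul_left (ENNReal.ofReal_le_ofReal h2) _
            _ = _ := by
                have hM := one_le_MM hl (y - y' + v)
                rw [ENNReal.ofReal_mul (by positivity)]
                ring
  calc En l y₀ (fun y => ∫ y', K (y - y') * G y')
      ≤ ∫⁻ y, (∫⁻ y', k (y - y') * H y') ^ (2 : ℝ) := hle
    _ ≤ (∫⁻ y, k y) ^ (2 : ℝ) * ∫⁻ y, H y ^ (2 : ℝ) := hY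
    _ ≤ _ := by
        rw [← hEn, ENNReal.rpow_two]
        exact mul_le_mul_left (pow_le_pow_left' hkint 2) _

theorem capt_proof (hCAPK : T_CAPK) (hCONV : T_CONV) (hYG : T_YG) (hTCU : T_TCU)
    (hCUT : T_CUT) : T_CAPT := by
  obtain ⟨C, hC⟩ := hCAPK 6
  have hJ := J_lt_top
  set J : ℝ≥0∞ := ∫⁻ x : ℝ × ℝ, ENNReal.ofReal ((PP x ^ 2)⁻¹) with hJdef
  refine ⟨((ENNReal.ofReal |C| * J) ^ 2).toNNReal, ?_⟩
  intro a ha l h s c y₀ b hc hh' hb
  have htop : (ENNReal.ofReal |C| * J) ^ 2 ≠ ⊤ :=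
    ENNReal.pow_ne_top (ENNReal.mul_lt_top ENNReal.ofReal_lt_top hJ).ne
  rw [ENNReal.coe_toNNReal htop]
  obtain ⟨-, -, hcap, -, -⟩ := hCUT
  have hl0 : 0 < l := by linarith [hc.1]
  obtain ⟨hcp, hcpf, -, hff, -, hsf⟩ := hcap l c hl0
  have hTK : TC (fun ζ => e (h * ph a ζ) * cpf l c ζ) := by
    refine hTCU a ha h _ hcpf fun ζ hζ => ?_
    have h1 := (abs_le.1 (hsf ζ hζ).1).1
    have h2 := hc.2.1
    have h3 : l / 8 - 2 ≤ l * ζ.1 := by linarith
    have h4 := hc.1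
    by_contra h5
    push Not at h5
    have h6 : l * ζ.1 < l * (1 / 16) := mul_lt_mul_of_pos_left h5 hl0
    linarith
  have hTG : TC (fun ζ => e (s * ph a ζ) * (cp l c ζ * b ζ)) := by
    refine hTCU a ha s _ (TC.mul hcp.1 hb.1) fun ζ hζ => ?_
    have := (hb.2 ζ (right_ne_zero_of_mul hζ)).1
    linarith
  set K : ℝ × ℝ → ℂ := Fi (fun ζ => e (h * ph a ζ) * cpf l c ζ) with hK
  set G : ℝ × ℝ → ℂ := Fi (fun ζ => e (s * ph a ζ) * (cp l c ζ * b ζ)) with hG
  have hF : U a (s + h) (fun ζ => cp l c ζ * b ζ) = fun y => ∫ y', K (y - y') * G y' := by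
    funext y
    rw [U_add, hK, hG, ← hCONV _ _ hTK hTG y]
    congr 1
    funext ζ
    have := hff ζ
    calc e (h * ph a ζ) * (e (s * ph a ζ) * (cp l c ζ * b ζ))
        = e (h * ph a ζ) * (e (s * ph a ζ) * ((cpf l c ζ * cp l c ζ) * b ζ)) := by rw [this]
      _ = _ := by ring
  have hG' : U a s (fun ζ => cp l c ζ * b ζ) = G := rfl
  rw [hF, hG']
  refine conv_en hYG l |C| hl0 (abs_nonneg C) _ y₀ K G (continuous_Fi hTK.integrable)
    (continuous_Fi hTG.integrable) fun z => ?_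
  have h1 := hC a ha l h c hc hh' z
  have hM := one_le_MM hl0 (z + h • gr a ((c.2 : ℝ) / c.1))
  have hM' : (1 + |(z + h • gr a ((c.2 : ℝ) / c.1)).1| / l) *
        (1 + |(z + h • gr a ((c.2 : ℝ) / c.1)).2| / l) = MM l (z + h • gr a ((c.2 : ℝ) / c.1)) := rfl
  rw [hM'] at h1
  rw [← div_eq_mul_inv, le_div_iff₀ (by positivity)]
  refine h1.trans ?_
  exact div_le_div_of_nonneg_right (le_abs_self C) (by positivity)

end Pool.Agent.H2.LS
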