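import Mathlib
import Pool.Agent.H2.LS.Tools

/-!
Local smoothing, module SECK: kernels of planks.
-/

set_option autoImplicit false

namespace Pool.Agent.H2.LS

open MeasureTheory Set Pool.Agent.H83.LS
open scoped ENNReal NNReal

/-- the denominator of the remainder -/
noncomputable def DD (a s₀ μ z η : ℝ) : ℝ :=
  Real.sqrt (z ^ 2 + a ^ 2 * (s₀ * z + μ * η) ^ 2) +
    z * Real.sqrt (1 + a ^ 2 * s₀ ^ 2) + μ * a ^ 2 * s₀ * η / Real.sqrt (1 + a ^ 2 * s₀ ^ 2)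

/-- the remainder -/
noncomputable def EE (a s₀ μ z η : ℝ) : ℝ :=
  η ^ 2 / ((1 + a ^ 2 * s₀ ^ 2) * DD a s₀ μ z η)

theorem one_le_w (a s₀ : ℝ) : 1 ≤ Real.sqrt (1 + a ^ 2 * s₀ ^ 2) := by
  rw [show (1 : ℝ) = Real.sqrt 1 by simp]
  apply Real.sqrt_le_sqrt
  have : 0 ≤ a ^ 2 * s₀ ^ 2 := by positivity
  simpa using this

theorem DD_pos {a s₀ μ z η : ℝ} (hz : 0 < z) (hη : |η| ≤ z) (ha : |a| < 3 / 2)
    (hμ : |μ| < 3 / 2) : 0 < DD a s₀ μ z η := by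
  unfold DD
  have hw1 := one_le_w a s₀
  have hw2 : Real.sqrt (1 + a ^ 2 * s₀ ^ 2) ^ 2 = 1 + a ^ 2 * s₀ ^ 2 :=
    Real.sq_sqrt (by positivity)
  generalize Real.sqrt (1 + a ^ 2 * s₀ ^ 2) = w at hw1 hw2
  have hS : z ≤ Real.sqrt (z ^ 2 + a ^ 2 * (s₀ * z + μ * η) ^ 2) := by
    apply Real.le_sqrt_of_sq_le
    have : 0 ≤ a ^ 2 * (s₀ * z + μ * η) ^ 2 := by positivity
    linarith
  have hwpos : 0 < w := by linarith
  have h1 : |μ * s₀ * η| ≤ (s₀ ^ 2 + μ ^ 2 / 4) * z := by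
    rw [abs_mul, abs_mul]
    have h2 : |μ| * |s₀| ≤ s₀ ^ 2 + μ ^ 2 / 4 := by
      rw [← sq_abs s₀, ← sq_abs μ]
      nlinarith [sq_nonneg (|s₀| - |μ| / 2)]
    exact mul_le_mul h2 hη (abs_nonneg _) (by positivity)
  have ha2 : a ^ 2 ≤ 9 / 4 := by
    rw [← sq_abs]; nlinarith [abs_nonneg a]
  have hμ2 : μ ^ 2 ≤ 9 / 4 := by
    rw [← sq_abs]; nlinarith [abs_nonneg μ]
  have h3 : -(a ^ 2 * ((s₀ ^ 2 + μ ^ 2 / 4) * z)) ≤ a ^ 2 * (μ * s₀ * η) := by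
    have := neg_le_of_abs_le h1
    have h4 := mul_le_mul_of_nonneg_left this (sq_nonneg a)
    linarith
  have h5 : a ^ 2 * μ ^ 2 ≤ 81 / 16 := by
    calc a ^ 2 * μ ^ 2 ≤ (9 / 4) * (9 / 4) := mul_le_mul ha2 hμ2 (sq_nonneg _) (by norm_num)
      _ = 81 / 16 := by norm_num
  have h6 : 0 < z * w + z * w ^ 2 + μ * a ^ 2 * s₀ * η := by
    rw [hw2]
    have h7 : z ≤ z * w := by nlinarith
    have h8 : a ^ 2 * μ ^ 2 * z ≤ 81 / 16 * z := mul_le_mul_of_nonneg_right h5 hz.le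
    nlinarith
  have h9 : 0 < z + z * w + μ * a ^ 2 * s₀ * η / w := by
    have : z + z * w + μ * a ^ 2 * s₀ * η / w = (z * w + z * w ^ 2 + μ * a ^ 2 * s₀ * η) / w := by
      field_simp
    rw [this]
    exact div_pos h6 hwpos
  linarith

theorem ph_id {a s₀ μ z η : ℝ} (hz : 0 < z) (hD : 0 < DD a s₀ μ z η) :
    ph a (z, s₀ * z + μ * η) = z * hh a s₀ + μ * η * dh a s₀ + μ ^ 2 * EE a s₀ μ z η := by
  unfold ph hh dh EE
  unfold DD at hD ⊢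
  simp only
  have hw1 := one_le_w a s₀
  have hw2 : Real.sqrt (1 + a ^ 2 * s₀ ^ 2) ^ 2 = 1 + a ^ 2 * s₀ ^ 2 :=
    Real.sq_sqrt (by positivity)
  have hS2 : Real.sqrt (z ^ 2 + a ^ 2 * (s₀ * z + μ * η) ^ 2) ^ 2 =
    z ^ 2 + a ^ 2 * (s₀ * z + μ * η) ^ 2 := Real.sq_sqrt (by positivity)
  have hS0 := Real.sqrt_nonneg (z ^ 2 + a ^ 2 * (s₀ * z + μ * η) ^ 2)
  by_cases ha : a = 0
  · subst ha
    have h1 : Real.sqrt (z ^ 2 + (0 : ℝ) ^ 2 * (s₀ * z + μ * η) ^ 2) = z := by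
      rw [show z ^ 2 + (0 : ℝ) ^ 2 * (s₀ * z + μ * η) ^ 2 = z ^ 2 by ring]
      exact Real.sqrt_sq hz.le
    have h2 : Real.sqrt (1 + (0 : ℝ) ^ 2 * s₀ ^ 2) = 1 := by
      rw [show (1 : ℝ) + (0 : ℝ) ^ 2 * s₀ ^ 2 = 1 by ring]
      exact Real.sqrt_one
    rw [h1, h2]
    field_simp
    ring
  · generalize Real.sqrt (1 + a ^ 2 * s₀ ^ 2) = w at *
    generalize Real.sqrt (z ^ 2 + a ^ 2 * (s₀ * z + μ * η) ^ 2) = S at *
    have hwpos : 0 < w := by linarith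
    have ha2 : a ^ 2 ≠ 0 := pow_ne_zero 2 ha
    have e1 : (s₀ * z + μ * η) ^ 2 / (S + z) = (S - z) / a ^ 2 := by
      rw [div_eq_div_iff (by linarith) ha2]
      linear_combination (-1) * hS2
    have e2 : s₀ ^ 2 / (w + 1) = (w - 1) / a ^ 2 := by
      rw [div_eq_div_iff (by linarith) ha2]
      linear_combination (-1) * hw2
    have e3 : μ ^ 2 * (η ^ 2 / ((1 + a ^ 2 * s₀ ^ 2) * (S + z * w + μ * a ^ 2 * s₀ * η / w))) =
        (S - (z * w + μ * a ^ 2 * s₀ * η / w)) / a ^ 2 := by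
      rw [← hw2, ← mul_div_assoc, div_eq_div_iff (by positivity) ha2]
      have h3 : (S - (z * w + μ * a ^ 2 * s₀ * η / w)) * (w ^ 2 * (S + z * w + μ * a ^ 2 * s₀ * η / w))
          = w ^ 2 * S ^ 2 - (z * w ^ 2 + μ * a ^ 2 * s₀ * η) ^ 2 := by
        field_simp
        ring
      rw [h3, hS2, hw2]
      ring
    rw [e1, e2, e3]
    field_simp
    ring

/-- the amplitude -/
noncomputable def PS (q : (Fin 4 → ℝ) × (ℝ × ℝ)) : ℂ :=
  e (q.1 0 * EE (q.1 1) (q.1 2) (q.1 3) q.2.1 q.2.2) *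
    ((XX q.2.1 * psi (q.2.2 / q.2.1) : ℝ) : ℂ)

/-- the open set of parameters -/
def OO : Set (Fin 4 → ℝ) := {p | |p 1| < 3 / 2 ∧ |p 3| < 3 / 2}

theorem isOpen_OO : IsOpen OO := by
  unfold OO
  exact (isOpen_lt (continuous_apply (1 : Fin 4)).abs continuous_const).inter
    (isOpen_lt (continuous_apply (3 : Fin 4)).abs continuous_const)

/-- the closed set containing the support -/
def SU : Set ((Fin 4 → ℝ) × (ℝ × ℝ)) := {q | 1 / 8 ≤ q.2.1 ∧ |q.2.2| ≤ q.2.1}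

theorem isClosed_SU : IsClosed SU := by
  unfold SU
  exact (isClosed_le continuous_const (continuous_fst.comp continuous_snd)).inter
    (isClosed_le (continuous_snd.comp continuous_snd).abs (continuous_fst.comp continuous_snd))

theorem amp_zero {z η : ℝ} (h : ¬ (1 / 8 ≤ z ∧ |η| ≤ z)) : XX z * psi (η / z) = 0 := by
  by_cases hz : 1 / 8 ≤ z
  · have hη : z < |η| := by
      by_contra h'
      exact h ⟨hz, not_lt.1 h'⟩
    rw [psi_zero, mul_zero]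
    rw [abs_div, abs_of_pos (show 0 < z by linarith), le_div_iff₀ (by linarith)]
    linarith
  · rw [XX_zero_left (by linarith), zero_mul]

theorem smooth_PS : ContDiffOn ℝ (⊤ : ℕ∞) PS (OO ×ˢ univ) := by
  refine contDiffOn_of_vanish (isOpen_OO.prod isOpen_univ) isClosed_SU ?_ ?_
  · rintro q - hq
    unfold PS
    rw [amp_zero hq, Complex.ofReal_zero, mul_zero]
  · rintro q ⟨⟨h1, h3⟩, -⟩ ⟨hz, hη⟩
    have hzpos : 0 < q.2.1 := by linarith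
    have hD := DD_pos (s₀ := q.1 2) hzpos hη h1 h3
    have hw := one_le_w (q.1 1) (q.1 2)
    have c0 : ∀ i : Fin 4, ContDiffAt ℝ (⊤ : ℕ∞) (fun q : (Fin 4 → ℝ) × (ℝ × ℝ) => q.1 i) q := by
      intro i
      exact ((contDiff_apply ℝ ℝ i).comp contDiff_fst).contDiffAt
    have cz : ContDiffAt ℝ (⊤ : ℕ∞) (fun q : (Fin 4 → ℝ) × (ℝ × ℝ) => q.2.1) q :=
      (contDiff_fst.comp contDiff_snd).contDiffAt
    have ce : ContDiffAt ℝ (⊤ : ℕ∞) (fun q : (Fin 4 → ℝ) × (ℝ × ℝ) => q.2.2) q :=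
      (contDiff_snd.comp contDiff_snd).contDiffAt
    have cw : ContDiffAt ℝ (⊤ : ℕ∞) (fun q : (Fin 4 → ℝ) × (ℝ × ℝ) =>
        Real.sqrt (1 + (q.1 1) ^ 2 * (q.1 2) ^ 2)) q := by
      refine ContDiffAt.sqrt ?_ ?_
      · exact contDiffAt_const.add (((c0 1).pow 2).mul ((c0 2).pow 2))
      · positivity
    have cS : ContDiffAt ℝ (⊤ : ℕ∞) (fun q : (Fin 4 → ℝ) × (ℝ × ℝ) =>
        Real.sqrt (q.2.1 ^ 2 + (q.1 1) ^ 2 * (q.1 2 * q.2.1 + q.1 3 * q.2.2) ^ 2)) q := by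
      refine ContDiffAt.sqrt ?_ ?_
      · exact (cz.pow 2).add (((c0 1).pow 2).mul ((((c0 2).mul cz).add ((c0 3).mul ce)).pow 2))
      · positivity
    have cD : ContDiffAt ℝ (⊤ : ℕ∞) (fun q : (Fin 4 → ℝ) × (ℝ × ℝ) =>
        DD (q.1 1) (q.1 2) (q.1 3) q.2.1 q.2.2) q := by
      unfold DD
      refine (cS.add (cz.mul cw)).add (ContDiffAt.div ?_ cw (by linarith))
      exact (((c0 3).mul ((c0 1).pow 2)).mul (c0 2)).mul ce
    have cE : ContDiffAt ℝ (⊤ : ℕ∞) (fun q : (Fin 4 → ℝ) × (ℝ × ℝ) =>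
        EE (q.1 1) (q.1 2) (q.1 3) q.2.1 q.2.2) q := by
      unfold EE
      refine (ce.pow 2).div ((contDiffAt_const.add (((c0 1).pow 2).mul ((c0 2).pow 2))).mul cD) ?_
      have : 0 < 1 + (q.1 1) ^ 2 * (q.1 2) ^ 2 := by positivity
      exact (mul_pos this hD).ne'
    unfold PS
    refine ContDiffAt.mul ?_ ?_
    · exact contDiff_e.contDiffAt.comp q ((c0 0).mul cE)
    · refine (Complex.ofRealCLM.contDiff (n := (⊤ : ℕ∞))).contDiffAt.comp q (ContDiffAt.mul ?_ ?_)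
      · exact contDiff_XX.contDiffAt.comp q cz
      · exact contDiff_psi.contDiffAt.comp q (ce.div cz hzpos.ne')

theorem supp_PS (p : Fin 4 → ℝ) (ζ : ℝ × ℝ) (h : 4 < ‖ζ‖) : PS (p, ζ) = 0 := by
  unfold PS
  simp only
  have : XX ζ.1 * psi (ζ.2 / ζ.1) = 0 := by
    by_cases hc : 1 / 8 ≤ ζ.1 ∧ |ζ.2| ≤ ζ.1
    · have h1 : 4 < |ζ.1| := by
        rw [Prod.norm_def, lt_max_iff, Real.norm_eq_abs, Real.norm_eq_abs] at h
        rcases h with h | h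
        · exact h
        · have := le_abs_self ζ.1
          linarith [hc.2]
      rw [abs_of_pos (by linarith)] at h1
      rw [XX_zero_right h1.le, zero_mul]
    · exact amp_zero hc
  rw [this, Complex.ofReal_zero, mul_zero]

theorem U_sc (a μ s₀ s : ℝ) (ha : a ∈ Icc (0 : ℝ) 1) (hμ : μ ∈ Ioc (0 : ℝ) 1) (y : ℝ × ℝ) :
    U a s (sc μ s₀) y = (μ : ℂ) * Fi (fun ζ => PS (![s * μ ^ 2, a, s₀, μ], ζ))
      (y.1 + s₀ * y.2 + s * hh a s₀, μ * (y.2 + s * dh a s₀)) := by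
  unfold U Fi
  rw [integral_lin 1 0 s₀ μ (by have := hμ.1.ne'; simpa using this)]
  have h1 : |1 * μ - 0 * s₀| = μ := by
    rw [one_mul, zero_mul, sub_zero, abs_of_pos hμ.1]
  rw [h1, Complex.real_smul]
  congr 1
  congr 1
  funext x
  obtain ⟨z, η⟩ := x
  simp only [one_mul, zero_mul, add_zero]
  unfold PS
  have hp0 : (![s * μ ^ 2, a, s₀, μ] : Fin 4 → ℝ) 0 = s * μ ^ 2 := rfl
  have hp1 : (![s * μ ^ 2, a, s₀, μ] : Fin 4 → ℝ) 1 = a := rfl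
  have hp2 : (![s * μ ^ 2, a, s₀, μ] : Fin 4 → ℝ) 2 = s₀ := rfl
  have hp3 : (![s * μ ^ 2, a, s₀, μ] : Fin 4 → ℝ) 3 = μ := rfl
  simp only [hp0, hp1, hp2, hp3]
  unfold sc
  simp only
  have hμ0 := hμ.1.ne'
  have h2 : (s₀ * z + μ * η - s₀ * z) / (μ * z) = η / z := by
    rw [add_sub_cancel_left, mul_div_mul_left _ _ hμ0]
  rw [h2]
  by_cases hc : 1 / 8 ≤ z ∧ |η| ≤ z
  · have hz : 0 < z := by linarith [hc.1]
    have hD : 0 < DD a s₀ μ z η := DD_pos hz hc.2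
      (by rw [abs_of_nonneg ha.1]; linarith [ha.2]) (by rw [abs_of_pos hμ.1]; linarith [hμ.2])
    rw [ph_id hz hD, ← mul_assoc, ← mul_assoc, ← e_add, ← e_add]
    congr 2
    ring
  · rw [amp_zero hc]
    simp

theorem seck_proof (hKB : T_KB) : T_SECK := by
  intro N
  obtain ⟨C, hC⟩ := hKB 4 (Icc ![-1, 0, -4, 0] ![1, 1, 4, 1]) OO PS 4 isCompact_Icc isOpen_OO
    (by
      rintro p ⟨h1, h2⟩
      have a1 := h1 1
      have a2 := h2 1
      have b1 := h1 3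
      have b2 := h2 3
      simp at a1 a2 b1 b2
      refine ⟨?_, ?_⟩
      · rw [abs_of_nonneg a1]; linarith
      · rw [abs_of_nonneg b1]; linarith) smooth_PS
    (fun p _ ζ h => supp_PS p ζ h) N
  refine ⟨C, ?_⟩
  intro a ha μ hμ s₀ hs₀ s hs y
  rw [U_sc a μ s₀ s ha hμ y, norm_mul, Complex.norm_real, Real.norm_eq_abs, abs_of_pos hμ.1]
  have hp : (![s * μ ^ 2, a, s₀, μ] : Fin 4 → ℝ) ∈ Icc (![-1, 0, -4, 0] : Fin 4 → ℝ) ![1, 1, 4, 1] := by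
    have hs' : |s * μ ^ 2| ≤ 1 := by
      rw [abs_mul, abs_of_nonneg (sq_nonneg μ)]; exact hs
    rw [abs_le] at hs'
    refine ⟨?_, ?_⟩
    · intro i
      fin_cases i
      · exact hs'.1
      · exact ha.1
      · exact hs₀.1
      · exact hμ.1.le
    · intro i
      fin_cases i
      · exact hs'.2
      · exact ha.2
      · exact hs₀.2
      · exact hμ.2
  have h1 := hC _ hp (y.1 + s₀ * y.2 + s * hh a s₀, μ * (y.2 + s * dh a s₀))
  simp only [abs_mul, abs_of_pos hμ.1] at h1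
  calc _ = μ * (‖Fi (fun ζ => PS (![s * μ ^ 2, a, s₀, μ], ζ))
      (y.1 + s₀ * y.2 + s * hh a s₀, μ * (y.2 + s * dh a s₀))‖ *
      ((1 + |y.1 + s₀ * y.2 + s * hh a s₀|) * (1 + μ * |y.2 + s * dh a s₀|)) ^ N) := by ring
    _ ≤ μ * C := mul_le_mul_of_nonneg_left h1 hμ.1.le
    _ = C * μ := by ring

end Pool.Agent.H2.LS
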